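import Pool.Agent.H370R2.Dyadic
import Pool.Agent.H370R2.DirGood
import Pool.Agent.W376.TC.Glob

/-!
# Upper bound for the number of zeros, `N(T) ≤ (1 + ε) (T/2π) log T`
-/

open Complex Filter Topology Set MeasureTheory

namespace Pool.Agent.W352.TCF

open H370

lemma nn_zero_add {A X : ℝ} (hA : 1 ≤ A) (hAX : A ≤ X) :
    NN riemannZeta 0 X = NN riemannZeta 0 A + NN riemannZeta A X := by
  unfold NN
  rw [← finsum_mem_union]
  · have hset : zset riemannZeta 0 X = zset riemannZeta 0 A ∪ zset riemannZeta A X := by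
      ext s
      simp only [zset, Set.mem_ofPred_eq, Set.mem_union]
      constructor
      · rintro ⟨a1, a2, a3, a4, a5⟩
        rcases le_or_gt s.im A with h1 | h1
        · exact Or.inl ⟨a1, a2, a3, h1, a5⟩
        · exact Or.inr ⟨a1, a2, h1, a4, a5⟩
      · rintro (⟨a1, a2, a3, a4, a5⟩ | ⟨a1, a2, a3, a4, a5⟩)
        · exact ⟨a1, a2, a3, a4.trans hAX, a5⟩
        · exact ⟨a1, a2, by linarith, a4, a5⟩
    rw [hset]
  · rw [Set.disjoint_left]
    rintro s ⟨a1, a2, a3, a4, a5⟩ ⟨b1, b2, b3, b4, b5⟩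
    linarith
  · exact zeta_zeros_finite A
  · exact zset_finite good_zeta A X hA

/-- `N(X) ≤ (X/2π) log X + C X`. -/
theorem nn_upper : ∃ C X0 : ℝ, 0 < C ∧ 10 ≤ X0 ∧ ∀ X : ℝ, X0 ≤ X →
    (NN riemannZeta 0 X : ℝ) ≤ X * Real.log X / (2 * Real.pi) + C * X := by
  obtain ⟨C, T0, hC, hT0, h⟩ := nn_asymp good_zeta
  have key : ∀ k : ℕ, ∀ T : ℝ, T0 ≤ T → (NN riemannZeta T (2 ^ k * T) : ℝ) ≤
      (2 ^ k * T) * Real.log (2 ^ k * T) / (2 * Real.pi) + C * (2 ^ k * T) := by
    intro k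
    induction k with
    | zero =>
      intro T hT
      have h1 : NN riemannZeta T (2 ^ 0 * T) = 0 := by
        have h2 : NN riemannZeta T T = NN riemannZeta T T + NN riemannZeta T T :=
          NN_add good_zeta (by linarith) le_rfl le_rfl
        rw [pow_zero, one_mul]; omega
      rw [h1, pow_zero, one_mul, Nat.cast_zero]
      have : 0 ≤ Real.log T := Real.log_nonneg (by linarith)
      have hTT : 0 ≤ T := by linarith
      positivity
    | succ k ih =>
      intro T hT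
      have hT0' : 0 < T := by linarith
      have h2k : (1 : ℝ) ≤ 2 ^ k := one_le_pow₀ (by norm_num)
      have hle : T ≤ 2 ^ k * T := by nlinarith
      set Y := 2 ^ k * T with hY
      have e : (2 : ℝ) ^ (k + 1) * T = 2 * Y := by rw [hY]; ring
      have hYT : T0 ≤ Y := hT.trans hle
      have hY0 : 0 < Y := by linarith
      have h3 := NN_add good_zeta (show (1 : ℝ) ≤ T by linarith) hle
        (show Y ≤ 2 * Y by linarith)
      rw [e, h3]
      push_cast
      have h5 := ih T hT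
      rw [← hY] at h5
      have h6 := (abs_le.mp (h Y hYT Y (2 * Y) le_rfl (by linarith) (by linarith) le_rfl)).2
      have h7 : Real.log Y ≤ Real.log (2 * Y) := Real.log_le_log hY0 (by linarith)
      have hpi : 0 < 2 * Real.pi := by positivity
      have h8 : Y * Real.log Y / (2 * Real.pi) ≤ Y * Real.log (2 * Y) / (2 * Real.pi) := by
        gcongr
      have h9 : 2 * Y * Real.log (2 * Y) / (2 * Real.pi) =
          Y * Real.log (2 * Y) / (2 * Real.pi) + Y * Real.log (2 * Y) / (2 * Real.pi) := by ring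
      rw [h9]
      linarith
  set c : ℝ := (NN riemannZeta 0 T0 : ℝ) + NN riemannZeta T0 (2 * T0) with hc
  have hc0 : 0 ≤ c := by positivity
  refine ⟨C + c, T0, by positivity, hT0, fun X hX => ?_⟩
  have hT0pos : 0 < T0 := by linarith
  obtain ⟨k, hk1, hk2⟩ := exists_nat_pow_near (x := X / T0) (y := 2)
    (by rw [le_div_iff₀ hT0pos]; linarith) (by norm_num)
  have hp : (0 : ℝ) < 2 ^ k := by positivity
  set T : ℝ := X / 2 ^ k with hT
  have hXT : X = 2 ^ k * T := by rw [hT]; field_simp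
  have hAT1 : T0 ≤ T := by
    rw [hT, le_div_iff₀ hp, mul_comm]
    rwa [le_div_iff₀ hT0pos] at hk1
  have hT2A : T ≤ 2 * T0 := by
    rw [hT, div_le_iff₀ hp]
    rw [div_lt_iff₀ hT0pos, pow_succ] at hk2
    nlinarith
  have hTX : T ≤ X := by
    rw [hXT]
    have : (1 : ℝ) ≤ 2 ^ k := one_le_pow₀ (by norm_num)
    nlinarith
  have h7 := key k T hAT1
  rw [← hXT] at h7
  have h8 := NN_add good_zeta (show (1 : ℝ) ≤ T0 by linarith) hAT1 hTX
  have h9 := nn_zero_add (show (1 : ℝ) ≤ T0 by linarith) hX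
  have h10 : NN riemannZeta T0 T ≤ NN riemannZeta T0 (2 * T0) :=
    NN_mono good_zeta (by linarith) le_rfl hT2A
  have h11 : (NN riemannZeta T0 T : ℝ) ≤ NN riemannZeta T0 (2 * T0) := by exact_mod_cast h10
  rw [h9, h8]
  push_cast
  have h12 : c ≤ c * X := by nlinarith
  have h13 : (C + c) * X = C * X + c * X := by ring
  rw [h13]
  linarith

/-- `∑ mu ≤ (1 + ε) (T/2π) log T` over the ordinates of the zeros. -/
theorem sum_mu_le (hRH : RiemannHypothesis) (ε : ℝ) (hε : 0 < ε) : ∃ T1 : ℝ, 10 ≤ T1 ∧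
    ∀ T : ℝ, T1 ≤ T → ∑ g ∈ TC.ordT T, (TC.mu g : ℝ) ≤
      T * Real.log T / (2 * Real.pi) * (1 + ε) := by
  obtain ⟨C, X0, hC, hX0, h⟩ := nn_upper
  have hlog : ∀ᶠ T : ℝ in atTop, C * (2 * Real.pi) / ε ≤ Real.log T :=
    Real.tendsto_log_atTop.eventually_ge_atTop _
  obtain ⟨T2, hT2⟩ := hlog.exists_forall_of_atTop
  refine ⟨max X0 T2, hX0.trans (le_max_left _ _), fun T hT => ?_⟩
  have h1 := h T ((le_max_left _ _).trans hT)
  have h2 := hT2 T ((le_max_right _ _).trans hT)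
  have hT10 : 10 ≤ T := hX0.trans ((le_max_left _ _).trans hT)
  have e : ∑ g ∈ TC.ordT T, (TC.mu g : ℝ) = (NN riemannZeta 0 T : ℝ) := by
    unfold TC.ordT
    rw [TC.GlobAux.sum_im hRH _ (fun s hs => by
      rw [TC.GlobAux.mem_Z0] at hs
      exact ⟨hs.1, hs.2.1, hs.2.2.2.2⟩)]
    unfold NN H343.ZSide.Z0
    rw [finsum_mem_eq_finite_toFinset_sum _ (zeta_zeros_finite T)]
    push_cast
    rfl
  rw [e]
  refine h1.trans ?_
  have hpi : 0 < 2 * Real.pi := by positivity
  rw [div_le_iff₀ hε] at h2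
  have h3 : C * T ≤ T * Real.log T / (2 * Real.pi) * ε := by
    rw [div_mul_eq_mul_div, le_div_iff₀ hpi]
    have := mul_le_mul_of_nonneg_left h2 (show (0:ℝ) ≤ T by linarith)
    nlinarith
  linarith

end Pool.Agent.W352.TCF
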